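import Pool.Agent.H27.G.R_seed8.H343R2.EH.Defs

open Finset

namespace H343E

open Pool.Agent.H410R2 Pool.Agent.H398R2.BV Pool.Agent.Helper112 Pool.Agent.Helper112.BLB

theorem pointwise (X : ℝ) (hX : 1 ≤ X) (q F a : ℕ) [NeZero q] (ha : a.Coprime q) :
    |psiLogAP X q a - psiLog1 X / (Nat.totient q : ℝ)| ≤
      SS X q F + ‖VV X q F a‖ + q.primeFactors.card * Real.log X ^ 2 := by
  classical
  have hq : 1 ≤ q := NeZero.one_le
  set P0 := ∑ n ∈ (Icc 1 ⌊X⌋₊).filter (fun n => n.Coprime q),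
        ArithmeticFunction.vonMangoldt n * Real.log (X / n) with hP0
  have hφ : (1:ℝ) ≤ Nat.totient q := by exact_mod_cast Nat.totient_pos.mpr (by omega)
  have key : ((psiLogAP X q a - (1 / (Nat.totient q : ℝ)) * P0 : ℝ) : ℂ) =
      (1 / (Nat.totient q : ℂ)) *
      ∑ χ ∈ (univ : Finset (DirichletCharacter ℂ q)).filter (fun χ => χ ≠ 1),
        χ ((a : ZMod q)⁻¹) * TL X q χ (fun n => ArithmeticFunction.vonMangoldt n) := by
    have h1 : psiLogAP X q a - (1 / (Nat.totient q : ℝ)) * P0 =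
        ∑ n ∈ Icc 1 ⌊X⌋₊, ArithmeticFunction.vonMangoldt n * Real.log (X / n) *
          ((if n ≡ a [MOD q] then (1 : ℝ) else 0) -
            (if n.Coprime q then (1 : ℝ) / (Nat.totient q : ℝ) else 0)) := by
      rw [hP0]
      unfold psiLogAP
      rw [sum_filter, sum_filter, mul_sum, ← sum_sub_distrib]
      apply sum_congr rfl
      intro n _
      split_ifs <;> ring
    rw [h1, Complex.ofReal_sum, mul_sum]
    have h2 : ∀ n ∈ Icc 1 ⌊X⌋₊, ((ArithmeticFunction.vonMangoldt n * Real.log (X / n) *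
          ((if n ≡ a [MOD q] then (1 : ℝ) else 0) -
            (if n.Coprime q then (1 : ℝ) / (Nat.totient q : ℝ) else 0)) : ℝ) : ℂ) =
        ∑ χ ∈ (univ : Finset (DirichletCharacter ℂ q)).filter (fun χ => χ ≠ 1),
          (1 / (Nat.totient q : ℂ)) * (χ ((a : ZMod q)⁻¹) *
            (((ArithmeticFunction.vonMangoldt n : ℝ) : ℂ) * χ (n : ZMod q) *
              ((Real.log (X / n) : ℝ) : ℂ))) := by
      intro n _
      rw [Complex.ofReal_mul, bracket q a ha n, mul_sum, mul_sum]
      apply sum_congr rfl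
      intro χ _
      push_cast
      ring
    rw [sum_congr rfl h2, sum_comm]
    apply sum_congr rfl
    intro χ _
    unfold TL
    rw [mul_sum, mul_sum]
  -- split the characters
  have hsplit : ∑ χ ∈ (univ : Finset (DirichletCharacter ℂ q)).filter (fun χ => χ ≠ 1),
        χ ((a : ZMod q)⁻¹) * TL X q χ (fun n => ArithmeticFunction.vonMangoldt n) =
      ∑ χ ∈ smallC q F, χ ((a : ZMod q)⁻¹) * TL X q χ (fun n => ArithmeticFunction.vonMangoldt n) +
      ∑ χ ∈ largeC q F,
        χ ((a : ZMod q)⁻¹) * TL X q χ (fun n => ArithmeticFunction.vonMangoldt n) := by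
    rw [← sum_filter_add_sum_filter_not ((univ : Finset (DirichletCharacter ℂ q)).filter
      (fun χ => χ ≠ 1)) (fun χ => χ.conductor ≤ F)]
    congr 1
    · apply sum_congr _ fun _ _ => rfl
      unfold smallC
      rw [filter_filter]
      congr!
    · apply sum_congr _ fun _ _ => rfl
      unfold largeC
      rw [filter_filter]
      ext χ
      simp only [mem_filter, mem_univ, true_and, not_le]
  have h1 : |psiLogAP X q a - (1 / (Nat.totient q : ℝ)) * P0| ≤ SS X q F + ‖VV X q F a‖ := by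
    rw [← Real.norm_eq_abs, ← Complex.norm_real, key, hsplit, mul_add]
    refine (norm_add_le _ _).trans (add_le_add ?_ le_rfl)
    unfold SS
    rw [norm_mul]
    have h1 : ‖(1 / (Nat.totient q : ℂ))‖ = 1 / (Nat.totient q : ℝ) := by
      rw [norm_div, norm_one, Complex.norm_natCast]
    rw [h1]
    apply mul_le_mul_of_nonneg_left _ (by positivity)
    refine (norm_sum_le _ _).trans (sum_le_sum ?_)
    intro χ _
    rw [norm_mul]
    have : ‖χ ((a : ZMod q)⁻¹)‖ ≤ 1 := χ.norm_le_one _
    calc _ ≤ 1 * ‖TL X q χ (fun n => ArithmeticFunction.vonMangoldt n)‖ :=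
          mul_le_mul_of_nonneg_right this (norm_nonneg _)
      _ = _ := one_mul _
  -- principal character
  set E := (q.primeFactors.card : ℝ) * Real.log X ^ 2 with hE
  have hE0 : 0 ≤ E := by positivity
  have h5 : psiLog1 X - P0 =
      ∑ n ∈ (Icc 1 ⌊X⌋₊).filter (fun n => ¬ n.Coprime q),
        ArithmeticFunction.vonMangoldt n * Real.log (X / n) := by
    unfold psiLog1
    rw [← sum_filter_add_sum_filter_not (Icc 1 ⌊X⌋₊) (fun n => n.Coprime q)]
    ring
  have h6 := sum_nc X hX q hq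
  have h7 : 0 ≤ ∑ n ∈ (Icc 1 ⌊X⌋₊).filter (fun n => ¬ n.Coprime q),
        ArithmeticFunction.vonMangoldt n * Real.log (X / n) := by
    apply sum_nonneg
    intro n hn
    rw [mem_filter] at hn
    exact mul_nonneg ArithmeticFunction.vonMangoldt_nonneg (log_div_bounds X n hX hn.1).1
  have h8 : |(1 / (Nat.totient q : ℝ)) * P0 - psiLog1 X / (Nat.totient q : ℝ)| ≤ E := by
    have : (1 / (Nat.totient q : ℝ)) * P0 - psiLog1 X / (Nat.totient q : ℝ) =
        -((psiLog1 X - P0) / (Nat.totient q : ℝ)) := by ring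
    rw [this, abs_neg, h5, abs_of_nonneg (by positivity)]
    rw [div_le_iff₀ (by linarith)]
    calc _ ≤ E := h6
      _ = E * 1 := by ring
      _ ≤ E * (Nat.totient q : ℝ) := mul_le_mul_of_nonneg_left hφ hE0
  calc |psiLogAP X q a - psiLog1 X / (Nat.totient q : ℝ)| =
      |(psiLogAP X q a - (1 / (Nat.totient q : ℝ)) * P0) +
        ((1 / (Nat.totient q : ℝ)) * P0 - psiLog1 X / (Nat.totient q : ℝ))| := by
        congr 1; ring
    _ ≤ |psiLogAP X q a - (1 / (Nat.totient q : ℝ)) * P0| +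
        |(1 / (Nat.totient q : ℝ)) * P0 - psiLog1 X / (Nat.totient q : ℝ)| := abs_add_le _ _
    _ ≤ _ := by linarith

end H343E
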